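import Pool.Agent.TH652.COL.Cut

/-! The rotated law for general Dirichlet series with real coefficients. -/

set_option autoImplicit false

namespace Pool.Agent.TH652.GL

open Filter Topology Set
open Pool.Agent.W189.ML Pool.Agent.W189.LC Pool.Agent.W187.UR
open Pool.Agent.TH652.COL

variable {ι : Type} {lam c : ι → ℝ} {a : ℝ}

/-- the term of the rotated sum -/
noncomputable def gterm (lam c : ι → ℝ) (s₀ γ T : ℝ) (i : ι) : ℂ :=
  ((-(c i * Real.exp (-(s₀ * lam i)) / Real.Gamma (1 + lam i / T)) : ℝ) : ℂ) *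
    Complex.exp ((γ * (lam i / T) : ℝ) * Complex.I)

/-- the rotated sum -/
noncomputable def gsum (lam c : ι → ℝ) (s₀ γ T : ℝ) : ℂ := ∑' i, gterm lam c s₀ γ T i

/-- a Dirichlet series that converges absolutely for `Re s > a` -/
structure GData (lam c : ι → ℝ) (a : ℝ) : Prop where
  nonneg : ∀ i, 0 ≤ lam i
  sum : ∀ σ : ℝ, a < σ → Summable fun i => |c i| * Real.exp (-(σ * lam i))

theorem gser_eq (lam c : ι → ℝ) (s₀ D : ℝ) (z : ℂ) :
    ser (fun i => D * lam i) (fun i => c i * Real.exp (-(s₀ * lam i))) z =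
      ser lam c (s₀ + D * z) := by
  unfold ser
  refine tsum_congr fun i => ?_
  push_cast
  rw [mul_assoc, ← Complex.exp_add]
  congr 2
  ring

theorem gmdata (E : GData lam c a) {F : ℂ → ℂ} {s₀ σ₁ D : ℝ} (hD : 0 < D)
    (hD1 : a ≤ s₀ + D) (hD2 : σ₁ ≤ s₀ + D)
    (hmer : ∀ x : ℝ, s₀ ≤ x → MeromorphicAt F (x : ℂ))
    (hF : ∀ s : ℂ, σ₁ < s.re → F s = Complex.exp (ser lam c s)) :
    MData (fun i => D * lam i) (fun i => c i * Real.exp (-(s₀ * lam i)))
      (fun z => F (s₀ + D * z)) where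
  lam_pos := fun i => mul_nonneg hD.le (E.nonneg i)
  sum := fun σ hσ => by
    refine (E.sum (s₀ + D * σ) (by nlinarith)).congr fun i => ?_
    rw [abs_mul, Real.abs_exp, mul_assoc, ← Real.exp_add]
    congr 2
    ring
  mero := fun x hx => by
    have h1 := hmer (s₀ + D * x) (by
      have : 0 ≤ D * x := mul_nonneg hD.le hx.1
      linarith)
    push_cast at h1
    exact MeromorphicAt.comp_analyticAt (g := fun w : ℂ => (s₀ : ℂ) + D * w) h1 (by fun_prop)
  eq := fun z hz => by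
    have h1 : σ₁ < ((s₀ : ℂ) + D * z).re := by
      have : ((s₀ : ℂ) + D * z).re = s₀ + D * z.re := by simp
      rw [this]
      nlinarith
    rw [hF _ h1, gser_eq]

theorem gterm_eq (lam c : ι → ℝ) {s₀ γ T D : ℝ} (hD : 0 < D) (i : ι) : gterm lam c s₀ γ T i =
    -(((c i * Real.exp (-(s₀ * lam i)) : ℝ) : ℂ) *
      Complex.exp ((γ * (D * lam i / (D * T)) : ℝ) * Complex.I) *
        (om (D * lam i / (D * T)) : ℂ)) := by
  unfold gterm om
  rw [mul_div_mul_left _ _ hD.ne']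
  push_cast
  ring

theorem gsum_eq (lam c : ι → ℝ) {s₀ γ T D : ℝ} (hD : 0 < D) : gsum lam c s₀ γ T =
    -cmean (fun i => D * lam i) (fun i => c i * Real.exp (-(s₀ * lam i))) γ (D * T) := by
  unfold gsum cmean
  rw [← tsum_neg]
  exact tsum_congr fun i => gterm_eq lam c hD i

theorem norm_gterm_le (E : GData lam c a) {s₀ γ T b : ℝ} (hT : 0 < T) (hb : 0 ≤ b) (i : ι) :
    ‖gterm lam c s₀ γ T i‖ ≤ (Real.exp (Real.exp (b * T)) + 1) *
      (|c i| * Real.exp (-((s₀ + b) * lam i))) := by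
  have h0 : 0 ≤ lam i / T := div_nonneg (E.nonneg i) hT.le
  have h1 := om_le (mul_nonneg hb hT.le) h0
  rw [gterm_eq lam c zero_lt_one i, norm_neg, norm_mul, norm_mul, Complex.norm_real,
    Complex.norm_exp_ofReal_mul_I, mul_one, Complex.norm_real, Real.norm_eq_abs, Real.norm_eq_abs,
    one_mul, one_mul, abs_of_nonneg (om_nonneg h0), abs_mul, Real.abs_exp]
  have h2 : b * T * (lam i / T) = b * lam i := by
    field_simp
  rw [h2] at h1
  have h3 : Real.exp (-((s₀ + b) * lam i)) = Real.exp (-(s₀ * lam i)) * Real.exp (-(b * lam i)) := by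
    rw [← Real.exp_add]
    congr 1
    ring
  rw [h3]
  have h4 : 0 ≤ |c i| * Real.exp (-(s₀ * lam i)) := by positivity
  calc |c i| * Real.exp (-(s₀ * lam i)) * om (lam i / T) ≤
      |c i| * Real.exp (-(s₀ * lam i)) *
        ((Real.exp (Real.exp (b * T)) + 1) * Real.exp (-(b * lam i))) :=
        mul_le_mul_of_nonneg_left h1 h4
    _ = _ := by ring

theorem gsummable (E : GData lam c a) (s₀ γ : ℝ) {T : ℝ} (hT : 0 < T) :
    Summable fun i => gterm lam c s₀ γ T i := by
  set b : ℝ := |a - s₀| + 1 with hb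
  have hb0 : 0 ≤ b := by positivity
  have h1 : a < s₀ + b := by
    have := le_abs_self (a - s₀)
    rw [hb]
    linarith
  exact Summable.of_norm_bounded ((E.sum _ h1).mul_left (Real.exp (Real.exp (b * T)) + 1))
    fun i => norm_gterm_le E hT hb0 i

/-- **the law** -/
theorem glaw [Countable ι] (E : GData lam c a) {F : ℂ → ℂ} {s₀ σ₁ : ℝ}
    (hmer : ∀ x : ℝ, s₀ ≤ x → MeromorphicAt F (x : ℂ))
    (hF : ∀ s : ℂ, σ₁ < s.re → F s = Complex.exp (ser lam c s)) {γ : ℝ} (hγ : Real.pi / 2 < γ) :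
    {σ : ℝ | s₀ ≤ σ ∧ meromorphicOrderAt F (σ : ℂ) ≠ 0}.Finite ∧
    ∃ (m : ℤ) (l : ℝ), meromorphicOrderAt F (s₀ : ℂ) = m ∧
      meromorphicTrailingCoeffAt F (s₀ : ℂ) = l ∧ l ≠ 0 ∧
      (fun T : ℝ => gsum lam c s₀ γ T - (m * (Real.log T - Lam γ) - Real.log |l| +
        Real.pi * excess F s₀ * Complex.I)) =O[atTop] (fun T : ℝ => 1 / T) := by
  set D : ℝ := |a - s₀| + |σ₁ - s₀| + 1 with hDdef
  have hD0 : 0 < D := by positivity
  have hD1 : a ≤ s₀ + D := by
    have h1 := le_abs_self (a - s₀)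
    have h2 := abs_nonneg (σ₁ - s₀)
    rw [hDdef]
    linarith
  have hD2 : σ₁ ≤ s₀ + D := by
    have h1 := le_abs_self (σ₁ - s₀)
    have h2 := abs_nonneg (a - s₀)
    rw [hDdef]
    linarith
  have M := gmdata E hD0 hD1 hD2 hmer hF
  have hright : ∀ σ : ℝ, s₀ + D < σ → meromorphicOrderAt F (σ : ℂ) = 0 := by
    intro σ hσ
    have h1 := M.order_right (w := (((σ - s₀) / D : ℝ) : ℂ)) (by
      rw [Complex.ofReal_re, one_lt_div hD0]
      linarith)
    rw [order_scale F hD0.ne'] at h1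
    have h2 : s₀ + D * ((σ - s₀) / D) = σ := by
      field_simp
      ring
    rwa [h2] at h1
  have hfin : {σ : ℝ | s₀ ≤ σ ∧ meromorphicOrderAt F (σ : ℂ) ≠ 0}.Finite := by
    refine (M.finite_zeros.image fun x : ℝ => s₀ + D * x).subset ?_
    rintro σ ⟨h1, h2⟩
    refine ⟨(σ - s₀) / D, ⟨⟨div_nonneg (by linarith) hD0.le, ?_⟩, ?_⟩, ?_⟩
    · rw [div_le_iff₀ hD0]
      by_contra h3
      push Not at h3
      exact h2 (hright σ (by linarith))
    · rw [order_scale F hD0.ne']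
      have h3 : s₀ + D * ((σ - s₀) / D) = σ := by
        field_simp
        ring
      rwa [h3]
    · simp only
      field_simp
      ring
  refine ⟨hfin, ?_⟩
  have htop := M.order_ne_top (x := 0) ⟨le_rfl, by norm_num⟩
  rw [order_scale F hD0.ne', mul_zero, add_zero] at htop
  obtain ⟨m, hm⟩ := WithTop.ne_top_iff_exists.1 htop
  have hm0 : meromorphicOrderAt (fun w : ℂ => F (s₀ + D * w)) 0 = m := by
    have := order_scale F (s₀ := s₀) hD0.ne' 0
    rw [mul_zero, add_zero, Complex.ofReal_zero] at this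
    rw [this]
    exact hm.symm
  obtain ⟨r₁, C, T₀, hr, hi, hC, hT₀, h⟩ := mdata_rot M hm0 hγ
  rw [coeff_scale hD0.ne' (hmer s₀ le_rfl) hm.symm] at hr
  rw [excess_eq hD0 hright] at hi
  have hDc : (D : ℂ) ≠ 0 := by exact_mod_cast hD0.ne'
  -- remove the scale
  set r₀ : ℂ := r₁ - m * Real.log D with hr₀def
  have hpow : (D : ℂ) ^ m = Complex.exp (m * Real.log D) := by
    rw [Complex.exp_int_mul, ← Complex.ofReal_exp, Real.exp_log hD0]
  have hr' : Complex.exp r₀ = meromorphicTrailingCoeffAt F (s₀ : ℂ) := by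
    rw [hr₀def, Complex.exp_sub, hr, ← hpow]
    exact mul_div_cancel_left₀ _ (zpow_ne_zero _ hDc)
  have hi' : r₀.im = -Real.pi * excess F s₀ := by
    rw [hr₀def, Complex.sub_im, hi]
    have : ((m : ℂ) * Real.log D).im = 0 := by
      have h1 : ((m : ℂ) * Real.log D) = ((m * Real.log D : ℝ) : ℂ) := by push_cast; rfl
      rw [h1, Complex.ofReal_im]
    rw [this]
    ring
  set l : ℂ := meromorphicTrailingCoeffAt F (s₀ : ℂ) with hl
  have hl0 : l ≠ 0 := by rw [← hr']; exact Complex.exp_ne_zero _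
  have hlr : l = (((-1 : ℝ) ^ (excess F s₀) * Real.exp r₀.re : ℝ) : ℂ) := by
    have h1 : r₀ = (r₀.re : ℂ) + (excess F s₀ : ℂ) * (-(Real.pi * Complex.I)) := by
      apply Complex.ext
      · simp
      · rw [hi']; simp; ring
    rw [← hr']
    nth_rewrite 1 [h1]
    rw [Complex.exp_add, Complex.exp_int_mul, Complex.exp_neg, Complex.exp_pi_mul_I]
    push_cast
    norm_num
    ring
  have hlre : l = ((l.re : ℝ) : ℂ) := by
    rw [hlr, Complex.ofReal_re]
  have hlabs : Real.log |l.re| = r₀.re := by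
    have h1 : |l.re| = Real.exp r₀.re := by
      rw [hlr, Complex.ofReal_re, abs_mul, Real.abs_exp]
      have : |(-1 : ℝ) ^ (excess F s₀)| = 1 := by
        rw [abs_zpow]; simp
      rw [this, one_mul]
    rw [h1, Real.log_exp]
  have hlre0 : l.re ≠ 0 := by
    intro h1
    rw [h1, Complex.ofReal_zero] at hlre
    exact hl0 hlre
  have hr₀ : -r₀ = -(Real.log |l.re| : ℂ) + Real.pi * excess F s₀ * Complex.I := by
    rw [hlabs]
    apply Complex.ext
    · simp
    · rw [Complex.neg_im, hi']; simp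
  have hO : (fun T : ℝ => gsum lam c s₀ γ T - (m * (Real.log T - Lam γ) - r₀)) =O[atTop]
      (fun T : ℝ => 1 / T) := by
    refine Asymptotics.IsBigO.of_bound (C / D) ?_
    filter_upwards [eventually_ge_atTop (T₀ / D), eventually_gt_atTop 0] with T hT hT1
    have hT2 : T₀ ≤ D * T := by
      rw [div_le_iff₀ hD0] at hT
      linarith [mul_comm D T]
    have h5 := h (D * T) hT2
    rw [gsum_eq lam c hD0, Real.norm_eq_abs, abs_of_pos (by positivity : 0 < 1 / T)]
    have h6 : (m : ℂ) * (Real.log (D * T) - Lam γ) - r₁ = m * (Real.log T - Lam γ) - r₀ := by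
      rw [Real.log_mul hD0.ne' hT1.ne', hr₀def]
      push_cast
      ring
    rw [h6] at h5
    refine h5.trans (le_of_eq ?_)
    field_simp
  refine ⟨m, l.re, hm.symm, hlre, hlre0, ?_⟩
  refine hO.congr_left fun T => ?_
  linear_combination (-1 : ℂ) * hr₀



/-- **the tail is negligible** -/
theorem gcut (E : GData lam c a) (s₀ γ : ℝ) {A : ℝ} (hA : 0 < A) (hA1 : a - s₀ < A)
    (hcf : ∀ R : ℝ, {i | lam i ≤ R}.Finite) :
    (fun T : ℝ => gsum lam c s₀ γ T - ∑ᶠ i ∈ {i | lam i ≤ Real.exp (A * T)}, gterm lam c s₀ γ T i)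
      =O[atTop] (fun T : ℝ => 1 / T) := by
  set a₀ : ℝ := max 0 (a - s₀) with ha₀
  have ha₀A : a₀ < A := max_lt hA hA1
  have ha₀0 : 0 ≤ a₀ := le_max_left _ _
  have ha₀1 : a - s₀ ≤ a₀ := le_max_right _ _
  set a₁ : ℝ := (2 * a₀ + A) / 3 with ha₁
  set a₂ : ℝ := (a₀ + 2 * A) / 3 with ha₂
  have h01 : a₀ < a₁ := by rw [ha₁]; linarith
  have h12 : a₁ < a₂ := by rw [ha₁, ha₂]; linarith
  have h2A : a₂ < A := by rw [ha₂]; linarith
  have hs : Summable fun i => |c i| * Real.exp (-((s₀ + a₁) * lam i)) :=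
    E.sum _ (by linarith)
  set M : ℝ := ∑' i, |c i| * Real.exp (-((s₀ + a₁) * lam i)) with hM
  have hM0 : 0 ≤ M := tsum_nonneg fun i => by positivity
  have hκ : 0 < a₂ - a₁ := by linarith
  refine Asymptotics.IsBigO.of_bound (2 * M) ?_
  filter_upwards [exp_cmp hA h2A hκ, eventually_gt_atTop 0] with T hT hT0
  have hsum' : Summable fun i => gterm lam c s₀ γ T i := gsummable E s₀ γ hT0
  set C : Set ι := {i | lam i ≤ Real.exp (A * T)} with hC
  have hcf' : C.Finite := hcf _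
  have h1 : gsum lam c s₀ γ T - ∑ᶠ i ∈ C, gterm lam c s₀ γ T i =
      ∑' i : (Cᶜ : Set ι), gterm lam c s₀ γ T i := by
    have h2 := hsum'.tsum_subtype_add_tsum_subtype_compl C
    have h3 : ∑' i : C, gterm lam c s₀ γ T i = ∑ᶠ i ∈ C, gterm lam c s₀ γ T i := by
      rw [finsum_mem_eq_finite_toFinset_sum _ hcf', ← Finset.tsum_subtype]
      have h4 : ((hcf'.toFinset : Finset ι) : Set ι) = C := hcf'.coe_toFinset
      exact (congrArg (fun S : Set ι => ∑' i : S, gterm lam c s₀ γ T i) h4).symm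
    unfold gsum
    rw [← h2, h3]
    ring
  change ‖gsum lam c s₀ γ T - ∑ᶠ i ∈ C, gterm lam c s₀ γ T i‖ ≤ _
  rw [h1]
  have hb : ∀ i : (Cᶜ : Set ι), ‖gterm lam c s₀ γ T i‖ ≤
      (2 * Real.exp (-T)) * (|c i| * Real.exp (-((s₀ + a₁) * lam i))) := by
    rintro ⟨i, hi⟩
    simp only
    have hi' : Real.exp (A * T) < lam i := by
      have h5 : ¬ lam i ≤ Real.exp (A * T) := hi
      push Not at h5
      exact h5
    have h6 := norm_gterm_le E (s₀ := s₀) (γ := γ) (b := a₂) hT0 (by linarith) i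
    refine h6.trans ?_
    have h7 : Real.exp (-((s₀ + a₂) * lam i)) ≤
        Real.exp (-((s₀ + a₁) * lam i)) * Real.exp (-((a₂ - a₁) * Real.exp (A * T))) := by
      rw [← Real.exp_add]
      apply Real.exp_le_exp.2
      nlinarith
    have h8 : (Real.exp (Real.exp (a₂ * T)) + 1) * Real.exp (-((a₂ - a₁) * Real.exp (A * T))) ≤
        2 * Real.exp (-T) := by
      have h9 : (1 : ℝ) ≤ Real.exp (Real.exp (a₂ * T)) :=
        Real.one_le_exp (Real.exp_pos _).le
      calc (Real.exp (Real.exp (a₂ * T)) + 1) * Real.exp (-((a₂ - a₁) * Real.exp (A * T))) ≤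
          (2 * Real.exp (Real.exp (a₂ * T))) * Real.exp (-((a₂ - a₁) * Real.exp (A * T))) := by
            gcongr
            linarith
        _ = 2 * Real.exp (Real.exp (a₂ * T) - (a₂ - a₁) * Real.exp (A * T)) := by
            rw [mul_assoc, ← Real.exp_add]
            rfl
        _ ≤ 2 * Real.exp (-T) := by
            have h10 : Real.exp (Real.exp (a₂ * T) - (a₂ - a₁) * Real.exp (A * T)) ≤
                Real.exp (-T) := Real.exp_le_exp.2 (by linarith)
            linarith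
    calc (Real.exp (Real.exp (a₂ * T)) + 1) * (|c i| * Real.exp (-((s₀ + a₂) * lam i))) ≤
        (Real.exp (Real.exp (a₂ * T)) + 1) * (|c i| * (Real.exp (-((s₀ + a₁) * lam i)) *
          Real.exp (-((a₂ - a₁) * Real.exp (A * T))))) := by gcongr
      _ = ((Real.exp (Real.exp (a₂ * T)) + 1) * Real.exp (-((a₂ - a₁) * Real.exp (A * T)))) *
          (|c i| * Real.exp (-((s₀ + a₁) * lam i))) := by ring
      _ ≤ _ := mul_le_mul_of_nonneg_right h8 (by positivity)
  have hs1 : Summable fun i : (Cᶜ : Set ι) =>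
      (2 * Real.exp (-T)) * (|c i| * Real.exp (-((s₀ + a₁) * lam i))) :=
    (hs.subtype _).mul_left _
  have h11 : ‖∑' i : (Cᶜ : Set ι), gterm lam c s₀ γ T i‖ ≤
      ∑' i : (Cᶜ : Set ι), (2 * Real.exp (-T)) * (|c i| * Real.exp (-((s₀ + a₁) * lam i))) :=
    tsum_of_norm_bounded hs1.hasSum hb
  refine h11.trans ?_
  have h12 : ∑' i : (Cᶜ : Set ι), (2 * Real.exp (-T)) * (|c i| * Real.exp (-((s₀ + a₁) * lam i))) ≤
      (2 * Real.exp (-T)) * M := by
    rw [tsum_mul_left]
    refine mul_le_mul_of_nonneg_left ?_ (by positivity)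
    refine Summable.tsum_subtype_le _ _ (fun i => ?_) hs
    positivity
  refine h12.trans ?_
  have h13 : Real.exp (-T) ≤ 1 / T := by
    rw [Real.exp_neg, inv_eq_one_div]
    refine one_div_le_one_div_of_le hT0 ?_
    have := Real.add_one_le_exp T
    linarith
  rw [Real.norm_eq_abs, abs_of_pos (by positivity : 0 < 1 / T)]
  nlinarith [mul_nonneg hM0 (sub_nonneg.2 h13)]

/-- the limit in a law -/
theorem glim {S : ℝ → ℂ} {a c L : ℂ}
    (h : (fun T : ℝ => S T - (a * (Real.log T - L) + c)) =O[atTop] (fun T : ℝ => 1 / T)) :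
    Tendsto (fun T : ℝ => S T / Real.log T) atTop (𝓝 a) := by
  have h0 : Tendsto (fun T : ℝ => (1 : ℝ) / T) atTop (𝓝 0) := tendsto_const_nhds.div_atTop tendsto_id
  have h1 : Tendsto (fun T : ℝ => S T - (a * (Real.log T - L) + c)) atTop (𝓝 0) :=
    h.trans_tendsto h0
  have h2 : Tendsto (fun T : ℝ => ((Real.log T)⁻¹ : ℝ)) atTop (𝓝 0) :=
    Real.tendsto_log_atTop.inv_tendsto_atTop
  have h3 : Tendsto (fun T : ℝ => (((Real.log T)⁻¹ : ℝ) : ℂ)) atTop (𝓝 0) := by
    have := (Complex.continuous_ofReal.tendsto 0).comp h2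
    rw [Complex.ofReal_zero] at this
    exact this
  have h4 : Tendsto (fun T : ℝ => (S T - (a * (Real.log T - L) + c)) *
      (((Real.log T)⁻¹ : ℝ) : ℂ) + (a + (c - a * L) * (((Real.log T)⁻¹ : ℝ) : ℂ))) atTop
      (𝓝 (0 * 0 + (a + (c - a * L) * 0))) :=
    (h1.mul h3).add ((h3.const_mul _).const_add a)
  rw [mul_zero, mul_zero, add_zero, zero_add] at h4
  refine h4.congr' ?_
  filter_upwards [eventually_gt_atTop 1] with T hT
  have hl : (Real.log T : ℂ) ≠ 0 := by
    have : Real.log T ≠ 0 := (Real.log_pos hT).ne'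
    exact_mod_cast this
  rw [Complex.ofReal_inv]
  field_simp
  ring

end Pool.Agent.TH652.GL
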