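import Pool.Agent.TH652.GL.Law

/-! The zeta functions of arithmetic schemes. -/

set_option autoImplicit false

namespace Pool.Agent.TH652.GL

open Filter Topology Set
open Pool.Agent.W189.ML Pool.Agent.W189.LC Pool.Agent.W187.UR
open Pool.Agent.TH652.COL

/-- the number of points with coordinates in the field with `p ^ k` elements -/
noncomputable def npts {n : ℕ} (X : Set (MvPolynomial (Fin n) ℤ)) (p : Nat.Primes) (k : ℕ) : ℝ :=
  haveI : Fact (p : ℕ).Prime := ⟨p.2⟩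
  (Nat.card {u : Fin n → GaloisField p k //
    u ≠ 0 ∧ ∀ f ∈ X, MvPolynomial.aeval u f = 0} : ℝ) / ((p : ℝ) ^ k - 1)

theorem npts_nonneg {n : ℕ} (X : Set (MvPolynomial (Fin n) ℤ)) (p : Nat.Primes) (k : ℕ) :
    0 ≤ npts X p k := by
  unfold npts
  have h1 : (1 : ℝ) ≤ (p : ℝ) ^ k := one_le_pow₀ (by exact_mod_cast p.2.one_lt.le)
  have h2 : 0 ≤ (p : ℝ) ^ k - 1 := by linarith
  positivity

theorem npts_le {n : ℕ} (X : Set (MvPolynomial (Fin n) ℤ)) (p : Nat.Primes) (k : ℕ) :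
    npts X p (k + 1) ≤ 2 * ((p : ℝ) ^ (k + 1)) ^ n / (p : ℝ) ^ (k + 1) := by
  have hf : Fact (p : ℕ).Prime := ⟨p.2⟩
  have hp2 : (2 : ℝ) ≤ p := by exact_mod_cast p.2.two_le
  have hq2 : (2 : ℝ) ≤ (p : ℝ) ^ (k + 1) := by
    calc (2 : ℝ) ≤ p := hp2
      _ = (p : ℝ) ^ 1 := (pow_one _).symm
      _ ≤ (p : ℝ) ^ (k + 1) := pow_le_pow_right₀ (by linarith) (by omega)
  have hcard : Nat.card (GaloisField p (k + 1)) = (p : ℕ) ^ (k + 1) :=
    GaloisField.card p (k + 1) (Nat.succ_ne_zero k)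
  have hfin : Finite (GaloisField p (k + 1)) := by
    refine Nat.finite_of_card_ne_zero ?_
    rw [hcard]
    exact pow_ne_zero _ p.2.ne_zero
  have h1 : (Nat.card {u : Fin n → GaloisField p (k + 1) //
      u ≠ 0 ∧ ∀ f ∈ X, MvPolynomial.aeval u f = 0} : ℝ) ≤ ((p : ℝ) ^ (k + 1)) ^ n := by
    have h2 : Nat.card {u : Fin n → GaloisField p (k + 1) //
        u ≠ 0 ∧ ∀ f ∈ X, MvPolynomial.aeval u f = 0} ≤
        Nat.card (Fin n → GaloisField p (k + 1)) :=
      Nat.card_le_card_of_injective (fun x => x.1) Subtype.val_injective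
    rw [Nat.card_fun, hcard, Nat.card_fin] at h2
    exact_mod_cast h2
  unfold npts
  rw [div_le_div_iff₀ (by linarith) (by linarith)]
  have h3 : 0 ≤ ((p : ℝ) ^ (k + 1)) ^ n := by positivity
  nlinarith

/-- the frequencies -/
noncomputable def plam (x : Nat.Primes × ℕ) : ℝ := (x.2 + 1) * Real.log x.1

/-- the coefficients -/
noncomputable def pc {n : ℕ} (X : Set (MvPolynomial (Fin n) ℤ)) (x : Nat.Primes × ℕ) : ℝ :=
  npts X x.1 (x.2 + 1) / (x.2 + 1)

theorem plam_nonneg (x : Nat.Primes × ℕ) : 0 ≤ plam x := by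
  unfold plam
  have : 0 ≤ Real.log (x.1 : ℝ) := Real.log_nonneg (by exact_mod_cast x.1.2.one_lt.le)
  positivity

theorem exp_plam (σ : ℝ) (x : Nat.Primes × ℕ) :
    Real.exp (-(σ * plam x)) = (((x.1 : ℝ) ^ (-σ)) ^ (x.2 + 1)) := by
  have hp : (0 : ℝ) < x.1 := by exact_mod_cast x.1.2.pos
  rw [Real.rpow_def_of_pos hp, ← Real.exp_nat_mul]
  congr 1
  unfold plam
  push_cast
  ring

theorem psum {b : ℝ} (hb : 1 < b) :
    Summable fun x : Nat.Primes × ℕ => ((x.1 : ℝ) ^ (-b)) ^ (x.2 + 1) := by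
  have hg : Summable fun j : ℕ => ((2 : ℝ) ^ (-b)) ^ j := by
    refine summable_geometric_of_lt_one (by positivity) ?_
    exact Real.rpow_lt_one_of_one_lt_of_neg (by norm_num) (by linarith)
  have h1 : Summable fun p : Nat.Primes => (p : ℝ) ^ (-b) :=
    Nat.Primes.summable_rpow.2 (by linarith)
  have h2 := h1.mul_of_nonneg hg (fun p => by positivity) (fun j => by positivity)
  refine Summable.of_nonneg_of_le (fun x => by positivity) (fun x => ?_) h2
  rw [pow_succ']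
  have hp2 : (2 : ℝ) ≤ x.1 := by exact_mod_cast x.1.2.two_le
  refine mul_le_mul_of_nonneg_left ?_ (by positivity)
  refine pow_le_pow_left₀ (by positivity) ?_ _
  exact Real.rpow_le_rpow_of_nonpos (by norm_num) hp2 (by linarith)

theorem pdata {n : ℕ} (X : Set (MvPolynomial (Fin n) ℤ)) : GData plam (pc X) n where
  nonneg := plam_nonneg
  sum := fun σ hσ => by
    have h1 : Summable fun x : Nat.Primes × ℕ =>
        2 * ((x.1 : ℝ) ^ (-(σ - n + 1))) ^ (x.2 + 1) := (psum (by linarith)).mul_left 2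
    refine Summable.of_nonneg_of_le (fun x => by positivity) (fun x => ?_) h1
    have hp : (0 : ℝ) < x.1 := by exact_mod_cast x.1.2.pos
    have h2 := npts_le X x.1 x.2
    have h3 : |pc X x| ≤ npts X x.1 (x.2 + 1) := by
      unfold pc
      have h4 : (1 : ℝ) ≤ x.2 + 1 := by
        have : (0 : ℝ) ≤ x.2 := x.2.cast_nonneg
        linarith
      rw [abs_of_nonneg (div_nonneg (npts_nonneg X _ _) (by linarith))]
      exact div_le_self (npts_nonneg X _ _) h4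
    rw [exp_plam]
    have h5 : ((x.1 : ℝ) ^ (-(σ - n + 1))) ^ (x.2 + 1) =
        ((x.1 : ℝ) ^ (x.2 + 1)) ^ n / (x.1 : ℝ) ^ (x.2 + 1) * ((x.1 : ℝ) ^ (-σ)) ^ (x.2 + 1) := by
      have h6 : (x.1 : ℝ) ^ (-(σ - n + 1)) = (x.1 : ℝ) ^ n / x.1 * (x.1 : ℝ) ^ (-σ) := by
        rw [← Real.rpow_natCast (x.1 : ℝ) n]
        nth_rewrite 3 [← Real.rpow_one (x.1 : ℝ)]
        rw [← Real.rpow_sub hp, ← Real.rpow_add hp]
        congr 1
        ring
      rw [h6, mul_pow, div_pow, ← pow_mul, ← pow_mul, mul_comm n]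
    rw [h5]
    have h7 : 0 ≤ ((x.1 : ℝ) ^ (-σ)) ^ (x.2 + 1) := by positivity
    calc |pc X x| * ((x.1 : ℝ) ^ (-σ)) ^ (x.2 + 1) ≤
        (2 * ((x.1 : ℝ) ^ (x.2 + 1)) ^ n / (x.1 : ℝ) ^ (x.2 + 1)) *
          ((x.1 : ℝ) ^ (-σ)) ^ (x.2 + 1) := mul_le_mul_of_nonneg_right (h3.trans h2) h7
      _ = _ := by ring

theorem pfin (R : ℝ) : {x : Nat.Primes × ℕ | plam x ≤ R}.Finite := by
  have hl2 : 0 < Real.log 2 := Real.log_pos (by norm_num)
  have h1 : {p : Nat.Primes | (p : ℝ) ≤ Real.exp R}.Finite := by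
    refine ((Set.finite_Iic ⌊Real.exp R⌋₊).preimage
      (Nat.Primes.coe_nat_injective.injOn)).subset fun p hp => ?_
    exact Nat.le_floor hp
  refine (h1.prod (Set.finite_Iic (⌊R / Real.log 2⌋₊))).subset ?_
  intro x hx
  have hx' : ((x.2 : ℝ) + 1) * Real.log (x.1 : ℝ) ≤ R := hx
  have hq : (2 : ℝ) ≤ x.1 := by exact_mod_cast x.1.2.two_le
  have hlq : Real.log 2 ≤ Real.log (x.1 : ℝ) := Real.log_le_log (by norm_num) hq
  have hk : (0 : ℝ) ≤ x.2 := x.2.cast_nonneg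
  constructor
  · show (x.1 : ℝ) ≤ Real.exp R
    rw [← Real.log_le_iff_le_exp (by linarith)]
    nlinarith
  · show x.2 ≤ ⌊R / Real.log 2⌋₊
    refine Nat.le_floor ?_
    rw [le_div_iff₀ hl2]
    nlinarith

end Pool.Agent.TH652.GL
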